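import Mathlib
import Pool.Agent.Lib.MP_be7f9f_nt.Asm

/-!
# Dense infinite B_2[2]- and B_2[3]-sequences

For every `ε > 0` there is a `B_2[2]`-sequence with `a_j ≪ j^(1+√(3/2)+ε)` (exponent `2.2248...`)
and a `B_2[3]`-sequence with `a_j ≪ j^((1+√11)/2+ε)` (exponent `2.1584...`).

The elements are attached to primes `p` by the discrete logarithms of `p` modulo the primes
`q_0 < q_1 < ...` (written as the digits of one number), as in the work of Ruzsa and Cilleruelo on
infinite Sidon sequences; here the moduli are chosen at random and the primes which occur in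
`g + 1` equal sums are deleted. The equal sums are counted by a reduction to the points
`(p, Q)` of a box whose pairwise determinants are divisible by a large integer.
-/

namespace Pool.Agent.Results.MP_be7f9f_nt.DenseB2gSequences

/-- Let `ε > 0`. There is a strictly increasing sequence of positive integers such that every
`m` has at most two representations `m = a_i + a_j`, `i ≤ j`, and `a_j ≤ C (j+1)^(1+√(3/2)+ε)`;
and one such that every `m` has at most three and `a_j ≤ C (j+1)^((1+√11)/2+ε)`. -/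
theorem result (ε : ℝ) (hε : 0 < ε) :
    (∃ a : ℕ → ℕ, StrictMono a ∧ 0 < a 0 ∧
      (∀ m : ℕ, {x : ℕ × ℕ | x.1 ≤ x.2 ∧ a x.1 + a x.2 = m}.encard ≤ 2) ∧
      ∃ C : ℝ, ∀ j : ℕ, (a j : ℝ) ≤ C * ((j : ℝ) + 1) ^ (1 + √(3 / 2) + ε)) ∧
    (∃ a : ℕ → ℕ, StrictMono a ∧ 0 < a 0 ∧
      (∀ m : ℕ, {x : ℕ × ℕ | x.1 ≤ x.2 ∧ a x.1 + a x.2 = m}.encard ≤ 3) ∧
      ∃ C : ℝ, ∀ j : ℕ, (a j : ℝ) ≤ C * ((j : ℝ) + 1) ^ ((1 + √11) / 2 + ε)) :=
  BG.main ε hε

end Pool.Agent.Results.MP_be7f9f_nt.DenseB2gSequences
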