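import Mathlib
import Pool.Agent.Lib.MP_be7f9f_nt_P.PAsm

/-!
# Infinite Sidon sets with a prescribed profile

Let `u : ℝ → ℝ` be any function with `u t ≤ (1/2 - δ) t` for `t ≥ 1` and, for `1 ≤ s < t`,
`u s + u t ≤ s - δ t` or `2 u s + u t ≤ (1 - δ) t`.  Then there is an infinite Sidon set `A` with
`|A ∩ [1, n]| ≥ exp (u (log n))` for all large `n`.

The case `u t = c t`, `c < √2 - 1`, is Ruzsa's theorem.  Two further examples are proved in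
`Pool/Agent/Lib/MP_be7f9f_nt_P/PEx1.lean` and `PEx2.lean`.
-/

namespace Pool.Agent.Results.MP_be7f9f_nt.ProfileTheorem

/-- Let `δ > 0` and `u t ≤ (1/2 - δ) t` for `t ≥ 1`, and for all `1 ≤ s < t` let
`u s + u t ≤ s - δ t` or `2 u s + u t ≤ (1 - δ) t`.  Then there is an infinite set `A` of positive
integers all of whose sums of two elements are different such that
`|A ∩ [1, n]| ≥ exp (u (log n))` for all large `n`. -/
theorem result (u : ℝ → ℝ) (δ : ℝ) (hδ : 0 < δ) (h1 : ∀ t, 1 ≤ t → u t ≤ (1 / 2 - δ) * t)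
    (h2 : ∀ s t, 1 ≤ s → s < t → u s + u t ≤ s - δ * t ∨ 2 * u s + u t ≤ (1 - δ) * t) :
    ∃ A : Set ℕ, A.Infinite ∧ 0 ∉ A ∧
      (∀ a ∈ A, ∀ b ∈ A, ∀ c ∈ A, ∀ d ∈ A, a + b = c + d → (a = c ∧ b = d) ∨ (a = d ∧ b = c)) ∧
      ∃ n₀ : ℕ, ∀ n : ℕ, n₀ ≤ n → Real.exp (u (Real.log n)) ≤ (A ∩ Set.Iic n).ncard :=
  BGP.main u δ hδ h1 h2

end Pool.Agent.Results.MP_be7f9f_nt.ProfileTheorem
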